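import Mathlib
import Pool.Agent.V5helper51.MT.Stm

/-! # Project MT, job INT: sum against integral, and the first derivative test. -/

set_option autoImplicit false

open Finset MeasureTheory

namespace Pool.Agent.V5helper29.MT

open Pool.Agent.V5helper51.MT

theorem norm_e (x : ℝ) : ‖e x‖ = 1 := by
  unfold e
  have : (2 * (Real.pi : ℂ) * (x : ℂ) * Complex.I) = ((2 * Real.pi * x : ℝ) : ℂ) * Complex.I := by push_cast; ring
  rw [this, Complex.norm_exp_ofReal_mul_I]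

theorem hasDerivAt_e (x : ℝ) : HasDerivAt (fun y : ℝ => e y) (e x * (2 * Real.pi * Complex.I)) x := by
  unfold e
  have h1 : HasDerivAt (fun y : ℝ => (2 * (Real.pi : ℂ) * (y : ℂ) * Complex.I)) (2 * Real.pi * Complex.I) x := by
    have h2 : HasDerivAt (fun y : ℝ => (y : ℂ)) 1 x := Complex.ofRealCLM.hasDerivAt (x := x)
    have h3 := (h2.const_mul (2 * (Real.pi : ℂ))).mul_const Complex.I
    simpa using h3
  exact h1.cexp

theorem e_sub_le (x y : ℝ) : ‖e x - e y‖ ≤ 2 * Real.pi * |x - y| := by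
  have h := Convex.norm_image_sub_le_of_norm_hasDerivWithin_le (f := fun y : ℝ => e y)
    (f' := fun x => e x * (2 * Real.pi * Complex.I)) (C := 2 * Real.pi) (s := Set.univ) (x := y) (y := x)
    (fun z _ => (hasDerivAt_e z).hasDerivWithinAt) (fun z _ => by
      rw [norm_mul, norm_e, one_mul]
      have : (2 * (Real.pi : ℂ) * Complex.I) = ((2 * Real.pi : ℝ) : ℂ) * Complex.I := by push_cast; ring
      rw [this, norm_mul, Complex.norm_I, mul_one, Complex.norm_real, Real.norm_eq_abs,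
        abs_of_pos (by positivity)]) convex_univ (Set.mem_univ _) (Set.mem_univ _)
  simpa using h

theorem continuous_e : Continuous e := by
  unfold e
  fun_prop

/-- first derivative test -/
theorem fdt (Gf D D2 : ℝ → ℝ) (Y X γ : ℝ) (hYX : Y ≤ X) (hγ : γ ≠ 0)
    (hG : ∀ t, HasDerivAt Gf (D t) t) (hD : ∀ t, HasDerivAt D (D2 t) t) (hc : Continuous D2)
    (hpos : ∀ t ∈ Set.Icc Y X, 0 < D t) (hnn : ∀ t ∈ Set.Icc Y X, 0 ≤ D2 t) :
    ‖∫ u in Y..X, e (γ * Gf u)‖ ≤ 1 / (|γ| * D Y) := by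
  have hGc : Continuous Gf := continuous_iff_continuousAt.2 fun t => (hG t).continuousAt
  have hDc : Continuous D := continuous_iff_continuousAt.2 fun t => (hD t).continuousAt
  have hpi := Real.pi_pos
  set κ : ℂ := 2 * Real.pi * Complex.I * γ with hκ
  have hκn : ‖κ‖ = 2 * Real.pi * |γ| := by
    rw [hκ]
    simp [abs_of_pos hpi]
  have hκ0 : κ ≠ 0 := by
    rw [← norm_pos_iff, hκn]
    have := abs_pos.2 hγ
    positivity
  have hF : ∀ t, HasDerivAt (fun u => e (γ * Gf u)) (e (γ * Gf t) * (κ * D t)) t := by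
    intro t
    have h1 : HasDerivAt (fun u => γ * Gf u) (γ * D t) t := (hG t).const_mul γ
    have h2 := HasDerivAt.scomp t (hasDerivAt_e (γ * Gf t)) h1
    have h3 : (fun u => e (γ * Gf u)) = (fun y : ℝ => e y) ∘ (fun u => γ * Gf u) := rfl
    rw [h3]
    refine h2.congr_deriv ?_
    rw [hκ, Complex.real_smul]
    push_cast
    ring
  have hFc : Continuous (fun u => e (γ * Gf u)) := continuous_e.comp (continuous_const.mul hGc)
  -- the primitive
  have hH : ∀ t ∈ Set.Icc Y X, HasDerivAt (fun u => e (γ * Gf u) / (κ * (D u : ℂ)))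
      (e (γ * Gf t) - e (γ * Gf t) * (D2 t : ℂ) / (κ * (D t : ℂ) ^ 2)) t := by
    intro t ht
    have hDt : (D t : ℂ) ≠ 0 := by exact_mod_cast (hpos t ht).ne'
    have h1 : HasDerivAt (fun u => κ * (D u : ℂ)) (κ * (D2 t : ℂ)) t := (hD t).ofReal_comp.const_mul κ
    refine ((hF t).fun_div h1 (mul_ne_zero hκ0 hDt)).congr_deriv ?_
    field_simp
  have hDne : ∀ t ∈ Set.Icc Y X, (D t : ℂ) ≠ 0 := fun t ht => by exact_mod_cast (hpos t ht).ne'
  have hcont2 : ContinuousOn (fun t => e (γ * Gf t) * (D2 t : ℂ) / (κ * (D t : ℂ) ^ 2)) (Set.Icc Y X) := by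
    apply ContinuousOn.div
    · exact (hFc.mul (Complex.continuous_ofReal.comp hc)).continuousOn
    · exact (continuous_const.mul ((Complex.continuous_ofReal.comp hDc).pow 2)).continuousOn
    · intro t ht
      exact mul_ne_zero hκ0 (pow_ne_zero 2 (hDne t ht))
  have hint1 : IntervalIntegrable (fun u => e (γ * Gf u)) volume Y X := hFc.intervalIntegrable _ _
  have hint2 : IntervalIntegrable (fun t => e (γ * Gf t) * (D2 t : ℂ) / (κ * (D t : ℂ) ^ 2)) volume Y X := by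
    apply ContinuousOn.intervalIntegrable
    rw [Set.uIcc_of_le hYX]
    exact hcont2
  have hftc : ∫ t in Y..X, (e (γ * Gf t) - e (γ * Gf t) * (D2 t : ℂ) / (κ * (D t : ℂ) ^ 2)) =
      e (γ * Gf X) / (κ * (D X : ℂ)) - e (γ * Gf Y) / (κ * (D Y : ℂ)) := by
    apply intervalIntegral.integral_eq_sub_of_hasDerivAt
    · intro t ht
      rw [Set.uIcc_of_le hYX] at ht
      exact hH t ht
    · exact hint1.sub hint2
  rw [intervalIntegral.integral_sub hint1 hint2] at hftc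
  have hmain : ∫ u in Y..X, e (γ * Gf u) = e (γ * Gf X) / (κ * (D X : ℂ)) - e (γ * Gf Y) / (κ * (D Y : ℂ)) +
      ∫ t in Y..X, e (γ * Gf t) * (D2 t : ℂ) / (κ * (D t : ℂ) ^ 2) := by
    rw [← hftc]; ring
  -- the last integral
  have hXm : X ∈ Set.Icc Y X := ⟨hYX, le_rfl⟩
  have hYm : Y ∈ Set.Icc Y X := ⟨le_rfl, hYX⟩
  have hDX := hpos X hXm
  have hDY := hpos Y hYm
  have hγp := abs_pos.2 hγ
  have hrint : IntervalIntegrable (fun t => D2 t / (2 * Real.pi * |γ| * D t ^ 2)) volume Y X := by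
    apply ContinuousOn.intervalIntegrable
    rw [Set.uIcc_of_le hYX]
    apply ContinuousOn.div hc.continuousOn (continuous_const.mul (hDc.pow 2)).continuousOn
    intro t ht
    exact mul_ne_zero (mul_ne_zero (by positivity) hγp.ne') (pow_ne_zero 2 (hpos t ht).ne')
  have hlast : ‖∫ t in Y..X, e (γ * Gf t) * (D2 t : ℂ) / (κ * (D t : ℂ) ^ 2)‖ ≤
      ∫ t in Y..X, D2 t / (2 * Real.pi * |γ| * D t ^ 2) := by
    apply intervalIntegral.norm_integral_le_of_norm_le hYX _ hrint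
    filter_upwards with t ht
    have ht' : t ∈ Set.Icc Y X := ⟨ht.1.le, ht.2⟩
    rw [norm_div, norm_mul, norm_mul, norm_e, hκn, norm_pow, Complex.norm_real, Complex.norm_real,
      Real.norm_eq_abs, Real.norm_eq_abs, abs_of_nonneg (hnn t ht'), abs_of_pos (hpos t ht'), one_mul]
  have hreal : ∫ t in Y..X, D2 t / (2 * Real.pi * |γ| * D t ^ 2) =
      (1 / (2 * Real.pi * |γ|)) * (1 / D Y - 1 / D X) := by
    have h1 : ∀ t ∈ Set.uIcc Y X, HasDerivAt (fun u => -(1 / (2 * Real.pi * |γ|)) * (D u)⁻¹)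
        (D2 t / (2 * Real.pi * |γ| * D t ^ 2)) t := by
      intro t ht
      rw [Set.uIcc_of_le hYX] at ht
      have hDt := (hpos t ht).ne'
      refine (((hD t).fun_inv hDt).const_mul (-(1 / (2 * Real.pi * |γ|)))).congr_deriv ?_
      field_simp
    rw [intervalIntegral.integral_eq_sub_of_hasDerivAt h1 hrint]
    field_simp
    ring
  rw [hmain]
  have hn1 : ‖e (γ * Gf X) / (κ * (D X : ℂ))‖ = 1 / (2 * Real.pi * |γ|) * (1 / D X) := by
    rw [norm_div, norm_mul, norm_e, hκn, Complex.norm_real, Real.norm_eq_abs, abs_of_pos hDX]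
    field_simp
  have hn2 : ‖e (γ * Gf Y) / (κ * (D Y : ℂ))‖ = 1 / (2 * Real.pi * |γ|) * (1 / D Y) := by
    rw [norm_div, norm_mul, norm_e, hκn, Complex.norm_real, Real.norm_eq_abs, abs_of_pos hDY]
    field_simp
  calc _ ≤ ‖e (γ * Gf X) / (κ * (D X : ℂ)) - e (γ * Gf Y) / (κ * (D Y : ℂ))‖ +
        ‖∫ t in Y..X, e (γ * Gf t) * (D2 t : ℂ) / (κ * (D t : ℂ) ^ 2)‖ := norm_add_le _ _
    _ ≤ (‖e (γ * Gf X) / (κ * (D X : ℂ))‖ + ‖e (γ * Gf Y) / (κ * (D Y : ℂ))‖) +
        (1 / (2 * Real.pi * |γ|)) * (1 / D Y - 1 / D X) := by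
        rw [← hreal]
        exact add_le_add (norm_sub_le _ _) hlast
    _ = 1 / (Real.pi * (|γ| * D Y)) := by
        rw [hn1, hn2]
        field_simp
        ring
    _ ≤ 1 / (|γ| * D Y) := by
        apply one_div_le_one_div_of_le (by positivity)
        have : (1 : ℝ) ≤ Real.pi := by linarith [Real.pi_gt_three]
        nlinarith [mul_pos hγp hDY]

/-- derivative of `g` -/
noncomputable def g1 (k : ℕ) (α : Fin (k - 1) → ℝ) (x : ℝ) : ℝ := ∑ j, α j * (((j : ℕ) + 1 : ℝ) * x ^ (j : ℕ))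

/-- second derivative of `g` -/
noncomputable def g2 (k : ℕ) (α : Fin (k - 1) → ℝ) (x : ℝ) : ℝ :=
  ∑ j, α j * (((j : ℕ) + 1 : ℝ) * ((j : ℕ) * x ^ ((j : ℕ) - 1)))

theorem hasDerivAt_g (k : ℕ) (α : Fin (k - 1) → ℝ) (x : ℝ) : HasDerivAt (g k α) (g1 k α x) x := by
  unfold g g1
  have : (fun x : ℝ => ∑ j : Fin (k - 1), α j * x ^ ((j : ℕ) + 1)) =
      ∑ j : Fin (k - 1), (fun x : ℝ => α j * x ^ ((j : ℕ) + 1)) := by
    funext x; rw [Finset.sum_apply]
  rw [this]
  apply HasDerivAt.sum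
  intro j _
  have h := (hasDerivAt_pow ((j : ℕ) + 1) x).const_mul (α j)
  simpa using h

theorem hasDerivAt_g1 (k : ℕ) (α : Fin (k - 1) → ℝ) (x : ℝ) : HasDerivAt (g1 k α) (g2 k α x) x := by
  unfold g1 g2
  have : (fun x : ℝ => ∑ j : Fin (k - 1), α j * (((j : ℕ) + 1 : ℝ) * x ^ (j : ℕ))) =
      ∑ j : Fin (k - 1), (fun x : ℝ => α j * (((j : ℕ) + 1 : ℝ) * x ^ (j : ℕ))) := by
    funext x; rw [Finset.sum_apply]
  rw [this]
  apply HasDerivAt.sum
  intro j _
  exact ((hasDerivAt_pow (j : ℕ) x).const_mul _).const_mul (α j)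

/-- `G'` -/
noncomputable def D (k q ρ : ℕ) (α : Fin (k - 1) → ℝ) (t : ℝ) : ℝ :=
  k * (q * t + ρ) ^ (k - 1) + q * g1 k α (q * t + ρ)

/-- `G''` -/
noncomputable def D2 (k q ρ : ℕ) (α : Fin (k - 1) → ℝ) (t : ℝ) : ℝ :=
  q * (k * ((k - 1 : ℕ) * (q * t + ρ) ^ (k - 1 - 1)) + q * g2 k α (q * t + ρ))

theorem hasDerivAt_lin (q ρ : ℕ) (t : ℝ) : HasDerivAt (fun t : ℝ => (q : ℝ) * t + ρ) q t := by
  simpa using ((hasDerivAt_id t).const_mul (q : ℝ)).add_const (ρ : ℝ)

theorem hasDerivAt_G (k q ρ : ℕ) (hq : 1 ≤ q) (α : Fin (k - 1) → ℝ) (t : ℝ) :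
    HasDerivAt (G k q ρ α) (D k q ρ α t) t := by
  have hq0 : (q : ℝ) ≠ 0 := by positivity
  have h1 := hasDerivAt_lin q ρ t
  have h2 : HasDerivAt (fun t : ℝ => (((q : ℝ) * t + ρ) ^ k - (ρ : ℝ) ^ k) / q)
      (k * (q * t + ρ) ^ (k - 1)) t := by
    refine (((h1.fun_pow k).sub_const ((ρ : ℝ) ^ k)).div_const (q : ℝ)).congr_deriv ?_
    field_simp
  have h4 : HasDerivAt (fun t : ℝ => g k α ((q : ℝ) * t + ρ)) (g1 k α (q * t + ρ) * q) t :=
    HasDerivAt.comp t (hasDerivAt_g k α _) h1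
  refine (h2.fun_add h4).congr_deriv ?_
  unfold D
  ring

theorem hasDerivAt_D (k q ρ : ℕ) (α : Fin (k - 1) → ℝ) (t : ℝ) :
    HasDerivAt (D k q ρ α) (D2 k q ρ α t) t := by
  have h1 := hasDerivAt_lin q ρ t
  have h2 := (h1.fun_pow (k - 1)).const_mul (k : ℝ)
  have h4 : HasDerivAt (fun t : ℝ => g1 k α ((q : ℝ) * t + ρ)) (g2 k α (q * t + ρ) * q) t :=
    HasDerivAt.comp t (hasDerivAt_g1 k α _) h1
  refine (h2.fun_add (h4.const_mul (q : ℝ))).congr_deriv ?_
  unfold D2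
  ring

theorem continuous_D2 (k q ρ : ℕ) (α : Fin (k - 1) → ℝ) : Continuous (D2 k q ρ α) := by
  unfold D2 g2
  fun_prop

/-- the bound for the coefficients -/
noncomputable def Bc (k : ℕ) (α : Fin (k - 1) → ℝ) : ℝ := ∑ j : Fin (k - 1), |α j| * k ^ 2

theorem Bc_nonneg (k : ℕ) (α : Fin (k - 1) → ℝ) : 0 ≤ Bc k α :=
  Finset.sum_nonneg fun j _ => by positivity

theorem g1_le {k : ℕ} (α : Fin (k - 1) → ℝ) {x y : ℝ} (hx : 0 ≤ x) (hxy : x ≤ y) (hy : 1 ≤ y) (n : ℕ)
    (hn : k - 2 ≤ n) : |g1 k α x| ≤ Bc k α * y ^ n := by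
  unfold g1 Bc
  refine (Finset.abs_sum_le_sum_abs _ _).trans ?_
  rw [Finset.sum_mul]
  apply Finset.sum_le_sum
  intro j _
  have hj := j.2
  rw [abs_mul, mul_assoc]
  apply mul_le_mul_of_nonneg_left _ (abs_nonneg _)
  rw [abs_of_nonneg (by positivity)]
  have h1 : ((j : ℕ) + 1 : ℝ) ≤ k ^ 2 := by
    have h2 : (j : ℕ) + 1 ≤ k ^ 2 := by nlinarith [(by omega : (j : ℕ) + 1 ≤ k)]
    exact_mod_cast h2
  have h3 : x ^ (j : ℕ) ≤ y ^ n :=
    (pow_le_pow_left₀ hx hxy _).trans (pow_le_pow_right₀ hy (by omega))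
  exact mul_le_mul h1 h3 (by positivity) (by positivity)

theorem g2_le {k : ℕ} (α : Fin (k - 1) → ℝ) {x : ℝ} (hx : 1 ≤ x) :
    |x * g2 k α x| ≤ Bc k α * x ^ (k - 2) := by
  unfold g2 Bc
  rw [Finset.mul_sum]
  refine (Finset.abs_sum_le_sum_abs _ _).trans ?_
  rw [Finset.sum_mul]
  apply Finset.sum_le_sum
  intro j _
  have hj := j.2
  have e1 : x * (α j * (((j : ℕ) + 1 : ℝ) * ((j : ℕ) * x ^ ((j : ℕ) - 1)))) =
      α j * ((((j : ℕ) + 1 : ℝ) * (j : ℕ)) * x ^ (j : ℕ)) := by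
    rcases Nat.eq_zero_or_pos (j : ℕ) with h0 | h0
    · rw [h0]; simp
    · have : x ^ (j : ℕ) = x * x ^ ((j : ℕ) - 1) := by
        rw [← pow_succ']; congr 1; omega
      rw [this]; ring
  rw [e1, abs_mul, mul_assoc |α j| ((k : ℝ) ^ 2)]
  apply mul_le_mul_of_nonneg_left _ (abs_nonneg _)
  rw [abs_of_nonneg (by positivity)]
  have h1 : (((j : ℕ) + 1 : ℝ) * (j : ℕ)) ≤ k ^ 2 := by
    have h2 : ((j : ℕ) + 1) * (j : ℕ) ≤ k ^ 2 := by
      rw [sq]; exact Nat.mul_le_mul (by omega) (by omega)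
    exact_mod_cast h2
  have h3 : x ^ (j : ℕ) ≤ x ^ (k - 2) := pow_le_pow_right₀ hx (by omega)
  exact mul_le_mul h1 h3 (by positivity) (by positivity)

theorem t_INT : S_INT := by
  intro k q ρ hk hq α
  have hB := Bc_nonneg k α
  set B := Bc k α with hBdef
  have hq1 : (1 : ℝ) ≤ q := by exact_mod_cast hq
  have hρ0 : (0 : ℝ) ≤ ρ := by positivity
  have hk2 : (2 : ℝ) ≤ k := by exact_mod_cast hk
  set C1 : ℝ := (k + q * B) * (q + ρ) ^ (k - 1) with hC1
  have hC1p : 0 < C1 := by positivity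
  set T0 : ℝ := 1 + q * B with hT0
  have hT0p : 1 ≤ T0 := by rw [hT0]; nlinarith [mul_nonneg (by positivity : (0 : ℝ) ≤ q) hB]
  -- estimates of `D`
  have hDup : ∀ X : ℝ, 1 ≤ X → ∀ t ∈ Set.Icc (0 : ℝ) X, |D k q ρ α t| ≤ C1 * X ^ (k - 1) := by
    intro X hX t ht
    have hx0 : 0 ≤ (q : ℝ) * t + ρ := by have := ht.1; positivity
    have hx1 : (q : ℝ) * t + ρ ≤ (q + ρ) * X := by nlinarith [ht.2]
    have hy1 : 1 ≤ ((q : ℝ) + ρ) * X := by nlinarith
    have h1 := g1_le α hx0 hx1 hy1 (k - 1) (by omega)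
    unfold D
    calc |(k : ℝ) * (q * t + ρ) ^ (k - 1) + q * g1 k α (q * t + ρ)|
        ≤ |(k : ℝ) * (q * t + ρ) ^ (k - 1)| + |q * g1 k α (q * t + ρ)| := abs_add_le _ _
      _ ≤ k * ((q + ρ) * X) ^ (k - 1) + q * (B * ((q + ρ) * X) ^ (k - 1)) := by
          apply add_le_add
          · rw [abs_of_nonneg (by positivity)]
            exact mul_le_mul_of_nonneg_left (pow_le_pow_left₀ hx0 hx1 _) (by positivity)
          · rw [abs_mul, abs_of_nonneg (by positivity : (0 : ℝ) ≤ q)]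
            exact mul_le_mul_of_nonneg_left h1 (by positivity)
      _ = C1 * X ^ (k - 1) := by rw [hC1, mul_pow]; ring
  have hDlow : ∀ t : ℝ, T0 ≤ t → t ^ (k - 1) ≤ D k q ρ α t ∧ 0 ≤ D2 k q ρ α t := by
    intro t ht
    have ht1 : 1 ≤ t := hT0p.trans ht
    set x : ℝ := (q : ℝ) * t + ρ with hx
    have hxt : t ≤ x := by nlinarith
    have hx1 : 1 ≤ x := ht1.trans hxt
    have hxB : 1 + q * B ≤ x := ht.trans hxt
    have hpow : x ^ (k - 1) = x * x ^ (k - 2) := by rw [← pow_succ']; congr 1; omega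
    have hp2 : 0 < x ^ (k - 2) := by positivity
    constructor
    · have h1 := g1_le α (by linarith : 0 ≤ x) le_rfl hx1 (k - 2) le_rfl
      have h2 := (abs_le.1 h1).1
      unfold D
      rw [← hx]
      have h3 : t ^ (k - 1) ≤ x ^ (k - 1) := pow_le_pow_left₀ (by linarith) hxt _
      have h4 : (q : ℝ) * (-(B * x ^ (k - 2))) ≤ q * g1 k α x :=
        mul_le_mul_of_nonneg_left h2 (by positivity)
      have h5 : x ^ (k - 1) ≤ k * x ^ (k - 1) + q * (-(B * x ^ (k - 2))) := by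
        rw [hpow]
        nlinarith [mul_nonneg (by linarith : (0 : ℝ) ≤ x - q * B) hp2.le,
          mul_nonneg (mul_nonneg (by linarith : (0 : ℝ) ≤ (k : ℝ) - 2) (by linarith : (0 : ℝ) ≤ x)) hp2.le]
      linarith
    · have h1 := g2_le α hx1
      have h2 := (abs_le.1 h1).1
      unfold D2
      rw [← hx]
      apply mul_nonneg (by positivity)
      have h3 : 0 ≤ x * (k * ((k - 1 : ℕ) * x ^ (k - 1 - 1)) + q * g2 k α x) := by
        have h4 : (q : ℝ) * (-(B * x ^ (k - 2))) ≤ q * (x * g2 k α x) :=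
          mul_le_mul_of_nonneg_left h2 (by positivity)
        have h6 : ((k - 1 : ℕ) : ℝ) = k - 1 := by
          rw [Nat.cast_sub (by omega)]; simp
        have h5 : (q : ℝ) * (B * x ^ (k - 2)) ≤ x * (k * ((k - 1 : ℕ) * x ^ (k - 1 - 1))) := by
          have e1 : k - 1 - 1 = k - 2 := by omega
          rw [e1, h6]
          have hkk : 1 ≤ k * ((k : ℝ) - 1) := by nlinarith
          have h7 : q * B ≤ x * (k * ((k : ℝ) - 1)) :=
            (by linarith : q * B ≤ x).trans (le_mul_of_one_le_right (by linarith) hkk)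
          nlinarith [mul_le_mul_of_nonneg_right h7 hp2.le]
        nlinarith
      exact nonneg_of_mul_nonneg_right h3 (by linarith)
  have hGc : Continuous (G k q ρ α) :=
    continuous_iff_continuousAt.2 fun t => (hasDerivAt_G k q ρ hq α t).continuousAt
  have hFc : ∀ γ : ℝ, Continuous fun u => e (γ * G k q ρ α u) := fun γ =>
    continuous_e.comp (continuous_const.mul hGc)
  refine ⟨2 * Real.pi * C1 + T0 + 2, by positivity, fun X hX γ => ⟨?_, fun hγ => ?_⟩⟩
  · -- sum against integral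
    have hX1 : (1 : ℝ) ≤ X := by exact_mod_cast hX
    have hsum : ∫ u in (0 : ℝ)..X, e (γ * G k q ρ α u) =
        ∑ z ∈ range X, ∫ u in (z : ℝ)..((z + 1 : ℕ) : ℝ), e (γ * G k q ρ α u) := by
      have h := intervalIntegral.sum_integral_adjacent_intervals (μ := volume)
        (f := fun u => e (γ * G k q ρ α u)) (a := fun n : ℕ => (n : ℝ)) (n := X)
        (fun z _ => (hFc γ).intervalIntegrable _ _)
      rw [h]
      simp
    rw [hsum, ← Finset.sum_sub_distrib]
    have hterm : ∀ z ∈ range X, ‖e (γ * G k q ρ α z) - ∫ u in (z : ℝ)..((z + 1 : ℕ) : ℝ), e (γ * G k q ρ α u)‖ ≤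
        2 * Real.pi * C1 * |γ| * (X : ℝ) ^ (k - 1) := by
      intro z hz
      rw [Finset.mem_range] at hz
      have hz1 : ((z + 1 : ℕ) : ℝ) ≤ X := by exact_mod_cast hz
      have hz1' : (z : ℝ) + 1 ≤ X := by exact_mod_cast hz
      have h1 : e (γ * G k q ρ α z) = ∫ _u in (z : ℝ)..((z + 1 : ℕ) : ℝ), e (γ * G k q ρ α z) := by
        rw [intervalIntegral.integral_const]
        push_cast
        rw [show (z : ℝ) + 1 - z = 1 by ring, one_smul]
      rw [h1, ← intervalIntegral.integral_sub (intervalIntegrable_const) ((hFc γ).intervalIntegrable _ _)]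
      have h2 := intervalIntegral.norm_integral_le_of_norm_le_const (a := (z : ℝ)) (b := ((z + 1 : ℕ) : ℝ))
        (f := fun u => e (γ * G k q ρ α z) - e (γ * G k q ρ α u)) (C := 2 * Real.pi * C1 * |γ| * (X : ℝ) ^ (k - 1)) ?_
      · refine h2.trans (le_of_eq ?_)
        push_cast
        rw [show (z : ℝ) + 1 - z = 1 by ring, abs_one, mul_one]
      · intro u hu
        rw [Set.uIoc_of_le (by push_cast; linarith)] at hu
        have hz0 : (0 : ℝ) ≤ z := by positivity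
        have hu2 : u ≤ z + 1 := by have := hu.2; push_cast at this; exact this
        have hu' : u ∈ Set.Icc (0 : ℝ) X := ⟨by linarith [hu.1], by linarith⟩
        have hzm : (z : ℝ) ∈ Set.Icc (0 : ℝ) X := ⟨hz0, by linarith⟩
        have h3 : ‖G k q ρ α z - G k q ρ α u‖ ≤ (C1 * (X : ℝ) ^ (k - 1)) * ‖(z : ℝ) - u‖ :=
          Convex.norm_image_sub_le_of_norm_hasDerivWithin_le (f := G k q ρ α)
            (f' := D k q ρ α) (s := Set.Icc (0 : ℝ) X)
            (fun t _ => (hasDerivAt_G k q ρ hq α t).hasDerivWithinAt)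
            (fun t ht => by rw [Real.norm_eq_abs]; exact hDup X hX1 t ht) (convex_Icc _ _) hu' hzm
        have h4 : ‖(z : ℝ) - u‖ ≤ 1 := by
          rw [Real.norm_eq_abs, abs_le]; constructor <;> linarith [hu.1]
        refine (e_sub_le _ _).trans ?_
        rw [← mul_sub, abs_mul]
        have h5 : |G k q ρ α z - G k q ρ α u| ≤ C1 * (X : ℝ) ^ (k - 1) := by
          rw [← Real.norm_eq_abs]
          refine h3.trans ?_
          have : 0 ≤ C1 * (X : ℝ) ^ (k - 1) := by positivity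
          nlinarith
        calc 2 * Real.pi * (|γ| * |G k q ρ α z - G k q ρ α u|) ≤ 2 * Real.pi * (|γ| * (C1 * (X : ℝ) ^ (k - 1))) := by
              gcongr
          _ = _ := by ring
    refine (norm_sum_le _ _).trans ((Finset.sum_le_sum hterm).trans ?_)
    rw [Finset.sum_const, Finset.card_range, nsmul_eq_mul]
    have h6 : (X : ℝ) * (2 * Real.pi * C1 * |γ| * (X : ℝ) ^ (k - 1)) = 2 * Real.pi * C1 * (|γ| * (X : ℝ) ^ k) := by
      have : (X : ℝ) ^ k = X * (X : ℝ) ^ (k - 1) := by rw [← pow_succ']; congr 1; omega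
      rw [this]; ring
    rw [h6]
    have h7 : 0 ≤ |γ| * (X : ℝ) ^ k := by positivity
    nlinarith [mul_nonneg (by positivity : (0 : ℝ) ≤ T0 + 2) h7]
  · -- the integral
    have hγp := abs_pos.2 hγ
    set w : ℝ := |γ| ^ (-(1 / (k : ℝ))) with hw
    have hwp : 0 < w := Real.rpow_pos_of_pos hγp _
    set Y : ℝ := T0 + w with hY
    have hYp : 0 < Y := by positivity
    have hX0 : (0 : ℝ) ≤ X := by positivity
    have hone : ∀ Z : ℝ, 0 ≤ Z → ‖∫ u in (0 : ℝ)..Z, e (γ * G k q ρ α u)‖ ≤ Z := by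
      intro Z hZ
      have h := intervalIntegral.norm_integral_le_of_norm_le_const (a := (0 : ℝ)) (b := Z)
        (f := fun u => e (γ * G k q ρ α u)) (C := 1) (fun u _ => (norm_e _).le)
      rwa [one_mul, sub_zero, abs_of_nonneg hZ] at h
    have hconst : Y + w ≤ (2 * Real.pi * C1 + T0 + 2) * (1 + w) := by
      rw [hY]
      have : 0 ≤ 2 * Real.pi * C1 := by positivity
      nlinarith [mul_nonneg this (by positivity : 0 ≤ 1 + w), mul_nonneg (by linarith : 0 ≤ T0) hwp.le]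
    rcases le_total (X : ℝ) Y with hXY | hXY
    · exact (hone X hX0).trans (by linarith)
    · have hsplit : ∫ u in (0 : ℝ)..X, e (γ * G k q ρ α u) = (∫ u in (0 : ℝ)..Y, e (γ * G k q ρ α u)) +
          ∫ u in Y..X, e (γ * G k q ρ α u) :=
        (intervalIntegral.integral_add_adjacent_intervals ((hFc γ).intervalIntegrable _ _)
          ((hFc γ).intervalIntegrable _ _)).symm
      rw [hsplit]
      have hYT : T0 ≤ Y := by linarith
      have h1 := fdt (G k q ρ α) (D k q ρ α) (D2 k q ρ α) Y X γ hXY hγ (hasDerivAt_G k q ρ hq α)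
        (hasDerivAt_D k q ρ α) (continuous_D2 k q ρ α)
        (fun t ht => lt_of_lt_of_le (pow_pos (hYp.trans_le ht.1) _) (hDlow t (hYT.trans ht.1)).1)
        (fun t ht => (hDlow t (hYT.trans ht.1)).2)
      have h2 : 1 / (|γ| * D k q ρ α Y) ≤ w := by
        have h3 : w ^ (k - 1) ≤ D k q ρ α Y :=
          (pow_le_pow_left₀ hwp.le (by linarith) _).trans (hDlow Y hYT).1
        have h4 : |γ| * w ^ (k - 1) * w = 1 := by
          have e1 : |γ| * w ^ (k - 1) * w = |γ| * w ^ k := by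
            rw [mul_assoc, ← pow_succ]; congr 2; omega
          rw [e1, hw, ← Real.rpow_natCast, ← Real.rpow_mul hγp.le]
          have : -(1 / (k : ℝ)) * (k : ℝ) = -1 := by
            field_simp
          rw [this, Real.rpow_neg_one]
          exact mul_inv_cancel₀ hγp.ne'
        have h5 : 0 < |γ| * w ^ (k - 1) := by positivity
        calc 1 / (|γ| * D k q ρ α Y) ≤ 1 / (|γ| * w ^ (k - 1)) :=
              one_div_le_one_div_of_le h5 (mul_le_mul_of_nonneg_left h3 hγp.le)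
          _ = w := by rw [div_eq_iff h5.ne', ← h4]; ring
      calc _ ≤ ‖∫ u in (0 : ℝ)..Y, e (γ * G k q ρ α u)‖ + ‖∫ u in Y..X, e (γ * G k q ρ α u)‖ := norm_add_le _ _
        _ ≤ Y + w := add_le_add (hone Y hYp.le) (h1.trans h2)
        _ ≤ _ := hconst

end Pool.Agent.V5helper29.MT
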